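import Mathlib
import Pool.Agent.Results.MP_af568f_an.NoBasicSequence

open Filter Topology Cardinal Set

/-!
# MP_af568f_an: a locally convex space in which nothing infinite-dimensional converges

A stronger form of the negative answer to both questions. The space `U` is the one of the
starting file `NoBasicSequence`. In it bounded sets are finite-dimensional, every linear subspace
is sequentially closed, and still no subspace of countably infinite dimension is closed. So a
sequence with infinite-dimensional span never represents all points of its closed linear span by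
convergent series (uniqueness of the representation is not needed for this), not even by limits
of arbitrary sequences of linear combinations.
-/

namespace Pool.Agent.Results.MP_af568f_an.NoRepresentingSystem

open Pool.Agent.Results.MP_af568f_an.NoBasicSequence

section Space

variable {I : Type} [LinearOrder I] {𝕜 : Type} [RCLike 𝕜]
variable {t : I → ((I →₀ 𝕜) →ₗ[𝕜] 𝕜)} {F : I → Subfield 𝕜} {s : I → ℕ → (I →₀ 𝕜)}

theorem pi_injective (h : Good t F s) : Function.Injective (LinearMap.pi t) := by
  intro v w hvw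
  rw [← sub_eq_zero]
  apply h.inj
  intro α
  have := congrFun hvw α
  simp only [LinearMap.pi_apply] at this
  rw [map_sub, this, sub_self]

theorem lift_seq (x : ℕ → LinearMap.range (LinearMap.pi t)) (hx : LinearIndependent 𝕜 x) :
    ∃ v : ℕ → (I →₀ 𝕜), (∀ n, LinearMap.pi t (v n) = (x n : I → 𝕜)) ∧
      LinearIndependent 𝕜 v := by
  choose v hv using fun n => LinearMap.mem_range.1 (x n).2
  refine ⟨v, hv, ?_⟩
  have h1 : LinearIndependent 𝕜 (fun n => (x n : I → 𝕜)) :=
    hx.map' (LinearMap.range (LinearMap.pi t)).subtype (Submodule.ker_subtype _)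
  have h2 : (fun n => (x n : I → 𝕜)) = (LinearMap.pi t) ∘ v := by
    funext n
    exact (hv n).symm
  rw [h2] at h1
  exact h1.of_comp _

theorem exists_coord (h : Good t F s) (x : ℕ → LinearMap.range (LinearMap.pi t))
    (hx : LinearIndependent 𝕜 x) : ∃ β : I, ∀ n, 1 ≤ ‖(x n : I → 𝕜) β‖ := by
  obtain ⟨v, hv, hLI⟩ := lift_seq x hx
  obtain ⟨β, hsβ, hβ⟩ := h.exists_index v
  rw [← hsβ] at hLI
  have hβ' : ∀ n, InW β (F β) (s β n) := by
    rw [hsβ]
    exact hβ
  have h6 := h.e β hLI hβ'
  refine ⟨β, fun n => ?_⟩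
  have h7 := h6 n
  rw [hsβ] at h7
  rw [← hv n, LinearMap.pi_apply]
  exact h7

/-- Every linearly independent sequence is kept away from zero by a continuous functional. -/
theorem exists_functional (h : Good t F s) (x : ℕ → LinearMap.range (LinearMap.pi t))
    (hx : LinearIndependent 𝕜 x) :
    ∃ f : LinearMap.range (LinearMap.pi t) →L[𝕜] 𝕜, ∀ n, 1 ≤ ‖f (x n)‖ := by
  obtain ⟨β, hβ⟩ := exists_coord h x hx
  exact ⟨(ContinuousLinearMap.proj β).comp (LinearMap.range (LinearMap.pi t)).subtypeL, hβ⟩

theorem exists_closure (h : Good t F s) (x : ℕ → LinearMap.range (LinearMap.pi t))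
    (hx : LinearIndependent 𝕜 x) :
    ∃ u ∈ closure (Submodule.span 𝕜 (Set.range x) : Set (LinearMap.range (LinearMap.pi t))),
      u ∉ Submodule.span 𝕜 (Set.range x) := by
  classical
  obtain ⟨v, hv, hLIv⟩ := lift_seq x hx
  obtain ⟨α, hsα, hα⟩ := h.exists_index v
  rw [← hsα] at hLIv hα hv
  let u : LinearMap.range (LinearMap.pi t) := ⟨LinearMap.pi t (Finsupp.single α 1), ⟨_, rfl⟩⟩
  have hspan : ∀ y ∈ Submodule.span 𝕜 (Set.range (s α)),
      (⟨LinearMap.pi t y, ⟨_, rfl⟩⟩ : LinearMap.range (LinearMap.pi t)) ∈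
        Submodule.span 𝕜 (Set.range x) := by
    intro y hy
    induction hy using Submodule.span_induction with
    | mem y hy =>
      obtain ⟨n, rfl⟩ := hy
      refine Submodule.subset_span ⟨n, ?_⟩
      apply Subtype.ext
      rw [← hv n]
    | zero =>
      convert Submodule.zero_mem _
      rw [map_zero]
      rfl
    | add y z _ _ hy hz =>
      convert Submodule.add_mem _ hy hz
      rw [map_add]
      rfl
    | smul c y _ hy =>
      convert Submodule.smul_mem _ c hy
      rw [map_smul]
      rfl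
  have hspan2 : ∀ z ∈ Submodule.span 𝕜 (Set.range x),
      ∃ y ∈ Submodule.span 𝕜 (Set.range (s α)), LinearMap.pi t y = (z : I → 𝕜) := by
    intro z hz
    induction hz using Submodule.span_induction with
    | mem z hz =>
      obtain ⟨n, rfl⟩ := hz
      exact ⟨s α n, Submodule.subset_span ⟨n, rfl⟩, hv n⟩
    | zero => exact ⟨0, Submodule.zero_mem _, by rw [map_zero]; rfl⟩
    | add y z _ _ hy hz =>
      obtain ⟨y', hy', hy''⟩ := hy
      obtain ⟨z', hz', hz''⟩ := hz
      exact ⟨y' + z', Submodule.add_mem _ hy' hz', by rw [map_add, hy'', hz'']; rfl⟩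
    | smul c y _ hy =>
      obtain ⟨y', hy', hy''⟩ := hy
      exact ⟨c • y', Submodule.smul_mem _ _ hy', by rw [map_smul, hy'']; rfl⟩
  refine ⟨u, ?_, ?_⟩
  · rw [mem_closure_iff_nhds]
    intro N hN
    rw [nhds_subtype_eq_comap, Filter.mem_comap] at hN
    obtain ⟨N', hN', hNN'⟩ := hN
    rw [nhds_pi, Filter.mem_pi] at hN'
    obtain ⟨T, hT, W, hW, hWN⟩ := hN'
    obtain ⟨y, hy, hyT⟩ := h.approx hLIv hα hT.toFinset
    refine ⟨⟨LinearMap.pi t y, ⟨_, rfl⟩⟩, hNN' ?_, hspan y hy⟩
    apply hWN
    intro γ hγ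
    have h1 : (LinearMap.pi t y) γ = (u : I → 𝕜) γ := hyT γ (hT.mem_toFinset.2 hγ)
    change (LinearMap.pi t y) γ ∈ W γ
    rw [h1]
    exact mem_of_mem_nhds (hW γ)
  · intro hu
    obtain ⟨y, hy, hyu⟩ := hspan2 u hu
    have h1 : y = Finsupp.single α 1 := pi_injective h hyu
    rw [h1] at hy
    exact single_notMem_span hα hy

/-- Bounded sets are finite-dimensional. -/
theorem bounded_finite (h : Good t F s) (B : Set (LinearMap.range (LinearMap.pi t)))
    (hB : Bornology.IsVonNBounded 𝕜 B) : FiniteDimensional 𝕜 (Submodule.span 𝕜 B) := by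
  obtain ⟨b, hbB, hbs, hbi⟩ := exists_linearIndependent 𝕜 B
  by_contra hcon
  have hinf : b.Infinite := by
    intro hfin
    apply hcon
    rw [← hbs]
    exact FiniteDimensional.span_of_finite 𝕜 hfin
  let e := hinf.natEmbedding
  have hc : ∀ n : ℕ, ((n : 𝕜) + 1) ≠ 0 := fun n => by exact_mod_cast n.succ_ne_zero
  have hLI : LinearIndependent 𝕜 (fun n : ℕ => (((n : 𝕜) + 1)⁻¹) • (e n : LinearMap.range
      (LinearMap.pi t))) := by
    have h1 : LinearIndependent 𝕜 (fun n : ℕ => (e n : LinearMap.range (LinearMap.pi t))) :=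
      hbi.comp e e.injective
    exact h1.units_smul (fun n => (Units.mk0 _ (hc n))⁻¹)
  obtain ⟨β, hβ⟩ := exists_coord h _ hLI
  have h0 : Tendsto (fun n : ℕ => ((n : 𝕜) + 1)⁻¹) atTop (𝓝 0) := by
    have h1 : Tendsto (fun n : ℕ => (1 : ℝ) / ((n : ℝ) + 1)) atTop (𝓝 0) :=
      tendsto_one_div_add_atTop_nhds_zero_nat
    rw [tendsto_zero_iff_norm_tendsto_zero]
    refine h1.congr (fun n => ?_)
    rw [norm_inv, one_div]
    congr 1
    have h2 : ((n : 𝕜) + 1) = ((n + 1 : ℕ) : 𝕜) := by push_cast; ring
    rw [h2, RCLike.norm_natCast]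
    push_cast
    ring
  have h1 : Tendsto (fun n : ℕ => (((n : 𝕜) + 1)⁻¹) • (e n : LinearMap.range (LinearMap.pi t)))
      atTop (𝓝 0) :=
    hB.smul_tendsto_zero (Eventually.of_forall fun n => hbB (e n).2) h0
  have h10 : Continuous (fun z : LinearMap.range (LinearMap.pi t) => (z : I → 𝕜) β) :=
    (continuous_apply β).comp continuous_subtype_val
  have h9 := ((h10.tendsto 0).comp h1).norm
  have h11 : ‖((0 : LinearMap.range (LinearMap.pi t)) : I → 𝕜) β‖ = 0 := by simp
  rw [h11] at h9
  have h14 := ge_of_tendsto' h9 hβ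
  norm_num at h14

end Space

section General

variable {𝕜 : Type} [RCLike 𝕜] {U : Type} [AddCommGroup U] [Module 𝕜 U] [TopologicalSpace U]
  [IsTopologicalAddGroup U] [ContinuousSMul 𝕜 U] [T2Space U]

/-- If bounded sets are finite-dimensional, then all linear subspaces are sequentially closed. -/
theorem seqClosed (hU : ∀ B : Set U, Bornology.IsVonNBounded 𝕜 B →
    FiniteDimensional 𝕜 (Submodule.span 𝕜 B)) (S : Submodule 𝕜 U) : IsSeqClosed (S : Set U) := by
  intro y v hy hv
  have h1 : Bornology.IsVonNBounded 𝕜 (Set.range y) := hv.isVonNBounded_range 𝕜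
  have := hU _ h1
  have h2 : IsClosed ((Submodule.span 𝕜 (Set.range y) : Submodule 𝕜 U) : Set U) :=
    Submodule.closed_of_finiteDimensional _
  have h3 : v ∈ Submodule.span 𝕜 (Set.range y) :=
    h2.mem_of_tendsto hv (Eventually.of_forall fun n => Submodule.subset_span ⟨n, rfl⟩)
  have h4 : Submodule.span 𝕜 (Set.range y) ≤ S := by
    rw [Submodule.span_le]
    rintro _ ⟨n, rfl⟩
    exact hy n
  exact h4 h3

omit [TopologicalSpace U] [IsTopologicalAddGroup U] [ContinuousSMul 𝕜 U] [T2Space U] in
/-- A sequence with infinite-dimensional span has a linearly independent subfamily, indexed by the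
natural numbers, with the same span. -/
theorem exists_independent (x : ℕ → U)
    (hx : ¬ FiniteDimensional 𝕜 (Submodule.span 𝕜 (Set.range x))) :
    ∃ ψ : ℕ → ℕ, LinearIndependent 𝕜 (x ∘ ψ) ∧
      Submodule.span 𝕜 (Set.range (x ∘ ψ)) = Submodule.span 𝕜 (Set.range x) := by
  obtain ⟨κ, a, ha, hspan, hli⟩ := exists_linearIndependent' 𝕜 x
  have hinf : Infinite κ := by
    by_contra hcon
    rw [not_infinite_iff_finite] at hcon
    apply hx
    rw [← hspan]
    exact FiniteDimensional.span_of_finite 𝕜 (Set.finite_range _)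
  have hcnt : Countable κ := ha.countable
  obtain ⟨hden⟩ := nonempty_denumerable κ
  let e : ℕ ≃ κ := (Denumerable.eqv κ).symm
  refine ⟨a ∘ e, ?_, ?_⟩
  · exact hli.comp e e.injective
  · rw [← hspan]
    congr 1
    rw [← Function.comp_assoc]
    exact e.surjective.range_comp _

end General

/-- **Stronger negative answer to both questions.** Over `𝕜 = ℝ` and over `𝕜 = ℂ` there is an
infinite-dimensional Hausdorff locally convex space `U` such that every linearly independent
sequence has a continuous linear functional of absolute value at least one on all its terms, every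
bounded set spans a finite-dimensional space, every linear subspace is sequentially closed, and
for every sequence `x` whose linear span is infinite-dimensional the closed linear span of `x`
contains a point `v` which is not the limit of any sequence of linear combinations of the `x n`;
in particular `v` is not the sum of a convergent series of multiples of the `x n`. So no
sequence of `U` is a basic sequence, or a Schauder basic sequence. -/
theorem result (𝕜 : Type) [RCLike 𝕜] :
    ∃ (U : Type) (_ : AddCommGroup U) (_ : Module 𝕜 U) (_ : TopologicalSpace U)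
      (_ : IsTopologicalAddGroup U) (_ : ContinuousSMul 𝕜 U),
      T2Space U ∧ (∃ (J : Type) (p : SeminormFamily 𝕜 U J), WithSeminorms p) ∧
      ¬ FiniteDimensional 𝕜 U ∧
      (∀ x : ℕ → U, LinearIndependent 𝕜 x → ∃ f : U →L[𝕜] 𝕜, ∀ n, 1 ≤ ‖f (x n)‖) ∧
      (∀ B : Set U, Bornology.IsVonNBounded 𝕜 B → FiniteDimensional 𝕜 (Submodule.span 𝕜 B)) ∧
      (∀ S : Submodule 𝕜 U, IsSeqClosed (S : Set U)) ∧
      (∀ x : ℕ → U, ¬ FiniteDimensional 𝕜 (Submodule.span 𝕜 (Set.range x)) →
        ∃ v ∈ closure (Submodule.span 𝕜 (Set.range x) : Set U),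
          (∀ y : ℕ → U, (∀ n, y n ∈ Submodule.span 𝕜 (Set.range x)) →
            ¬ Tendsto y atTop (𝓝 v)) ∧
          ∀ a : ℕ → 𝕜, ¬ Tendsto (fun N => ∑ n ∈ Finset.range N, a n • x n) atTop (𝓝 v)) ∧
      (∀ x : ℕ → U, ¬ IsBasicSeq 𝕜 x) ∧ (∀ x : ℕ → U, ¬ IsSchauderBasicSeq 𝕜 x) := by
  obtain ⟨I, i1, i2, hI0, hI1, hI2⟩ := exists_index
  have hI1' : ∀ i : I, #{β : I // β < i} < 𝔠 := hI1
  obtain ⟨s, hs⟩ := exists_enum (𝕜 := 𝕜) hI0 hI1'
  obtain ⟨t, F, h1, h2, h3, h4, h5⟩ := exists_t (𝕜 := 𝕜) hI1' s
  have hG : Good t F s := ⟨h1, h2, h3, h4, h5, hs, hI2⟩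
  have hB := bounded_finite hG
  have hS := seqClosed hB
  refine ⟨LinearMap.range (LinearMap.pi t), inferInstance, inferInstance, inferInstance,
    inferInstance, inferInstance, inferInstance, ?_, ?_, exists_functional hG, hB, hS, ?_,
    no_basic hG, fun x hx => no_basic hG x hx.1⟩
  · have : PolynormableSpace 𝕜 (LinearMap.range (LinearMap.pi t)) :=
      PolynormableSpace.induced (LinearMap.range (LinearMap.pi t)).subtype
    exact ⟨_, _, PolynormableSpace.withSeminorms 𝕜 _⟩
  · intro hfin
    have hfin2 : FiniteDimensional 𝕜 (I →₀ 𝕜) :=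
      Module.Finite.equiv (LinearEquiv.ofInjective _ (pi_injective hG)).symm
    have hinfI : Infinite I := by
      rw [Cardinal.infinite_iff, hI0]
      exact aleph0_le_continuum
    have h6 : LinearIndependent 𝕜 (fun i : I => Finsupp.single i (1 : 𝕜)) :=
      (Finsupp.basisSingleOne (R := 𝕜) (ι := I)).linearIndependent
    exact absurd h6.finite (not_finite_iff_infinite.2 hinfI)
  · intro x hx
    obtain ⟨ψ, hψ, hspan⟩ := exists_independent x hx
    obtain ⟨v, hv, hv'⟩ := exists_closure hG _ hψ
    rw [hspan] at hv hv'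
    refine ⟨v, hv, fun y hy hyv => hv' (hS _ hy hyv), fun a ha => ?_⟩
    refine hv' (hS (Submodule.span 𝕜 (Set.range x)) (fun N => ?_) ha)
    exact Submodule.sum_mem _ fun n _ =>
      Submodule.smul_mem _ _ (Submodule.subset_span ⟨n, rfl⟩)

end Pool.Agent.Results.MP_af568f_an.NoRepresentingSystem
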